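import Pool.Agent.MWGN.StmtsC

/-!
# Squad MWGN (MP_23468a_al), row FAP: `xtzxsz ≈ xtxzxsz` implies `FB`
-/

set_option autoImplicit false

namespace Pool.Agent.MWGN.H64

open Pool.Agent.Helper14_MV Pool.Agent.Helper2_MV Pool.Agent.MWGN
open Pool.Agent.MWK (pre Gw)

variable {β : FIC}

theorem tr {a b c : List ℕ} (h1 : RR β a b) (h2 : RR β b c) : RR β a c := β.trans h1 h2

theorem ctx (p q : List ℕ) {l l' : List ℕ} (h : RR β l l') :
    RR β (p ++ (l ++ q)) (p ++ (l' ++ q)) :=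
  (RR.refl p).append (h.append (RR.refl q))

/-- substitution of words for `0, 1, 2, 3` -/
def sb (X Z T S : List ℕ) (c : ℕ) : List ℕ :=
  if c = 0 then X else if c = 1 then Z else if c = 2 then T else S

/-- `X t X ~ X t X X` -/
theorem gmw (h : Gz β) (X t : List ℕ) : RR β (X ++ (t ++ X)) (X ++ (t ++ (X ++ X))) := by
  have h1 := h.gw.gm.sub (sb X t [] [])
  have e1 : ([0, 1, 0] : List ℕ).flatMap (sb X t [] []) = X ++ (t ++ X) := by simp [sb]
  have e2 : ([0, 1, 0, 0] : List ℕ).flatMap (sb X t [] []) = X ++ (t ++ (X ++ X)) := by simp [sb]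
  rw [e1, e2] at h1
  exact h1

/-- `X X C C ~ C C X X` -/
theorem cw (h : Gz β) (X C : List ℕ) :
    RR β (X ++ (X ++ (C ++ C))) (C ++ (C ++ (X ++ X))) := by
  have h1 := h.c.sub (sb X C [] [])
  have e1 : ([0, 0, 1, 1] : List ℕ).flatMap (sb X C [] []) = X ++ (X ++ (C ++ C)) := by simp [sb]
  have e2 : ([1, 1, 0, 0] : List ℕ).flatMap (sb X C [] []) = C ++ (C ++ (X ++ X)) := by simp [sb]
  rw [e1, e2] at h1
  exact h1

/-- `X t Z X s Z ~ X t X Z X s Z` -/
theorem pw (hp : P0 β) (X t Z s : List ℕ) :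
    RR β (X ++ (t ++ (Z ++ (X ++ (s ++ Z))))) (X ++ (t ++ (X ++ (Z ++ (X ++ (s ++ Z)))))) := by
  have h1 := hp.sub (sb X Z t s)
  have e1 : ([0, 2, 1, 0, 3, 1] : List ℕ).flatMap (sb X Z t s) =
      X ++ (t ++ (Z ++ (X ++ (s ++ Z)))) := by simp [sb]
  have e2 : ([0, 2, 0, 1, 0, 3, 1] : List ℕ).flatMap (sb X Z t s) =
      X ++ (t ++ (X ++ (Z ++ (X ++ (s ++ Z))))) := by simp [sb]
  rw [e1, e2] at h1
  exact h1

/-- an `X` which is not the first one can be doubled -/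
theorem dbx (h : Gz β) (p1 p2 q X : List ℕ) :
    RR β ((p1 ++ (X ++ p2)) ++ (X ++ q)) ((p1 ++ (X ++ p2)) ++ (X ++ (X ++ q))) := by
  have h1 := ctx p1 q (gmw h X p2)
  simpa only [List.append_assoc] using h1

/-- insertion of `X X` in front of `Z` -/
theorem insX (h : Gz β) (hp : P0 β) (p1 p2 s q X Z : List ℕ) :
    RR β ((p1 ++ (X ++ p2)) ++ (Z ++ (X ++ (s ++ (Z ++ q)))))
      ((p1 ++ (X ++ p2)) ++ (X ++ (X ++ (Z ++ (X ++ (s ++ (Z ++ q))))))) := by
  have h1 := ctx p1 q (pw hp X p2 Z s)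
  have h2 := dbx h p1 p2 (Z ++ (X ++ (s ++ (Z ++ q)))) X
  refine tr ?_ h2
  simpa only [List.append_assoc] using h1

/-- `C C X X ~ X X C C X X` behind an `X` -/
theorem tmp (h : Gz β) (p1 p2 q X C : List ℕ) :
    RR β ((p1 ++ (X ++ p2)) ++ (C ++ (C ++ (X ++ (X ++ q)))))
      ((p1 ++ (X ++ p2)) ++ (X ++ (X ++ (C ++ (C ++ (X ++ (X ++ q))))))) := by
  have h1 := dbx h p1 (p2 ++ (C ++ C)) (X ++ q) X
  have h3 := ctx (p1 ++ (X ++ p2)) (X ++ (X ++ q)) (cw h X C)
  have h4 : RR β ((p1 ++ (X ++ p2)) ++ (C ++ (C ++ (X ++ (X ++ q)))))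
      ((p1 ++ (X ++ p2)) ++ (C ++ (C ++ (X ++ (X ++ (X ++ q)))))) := by
    simpa only [List.append_assoc] using h1
  have h5 : RR β ((p1 ++ (X ++ p2)) ++ (C ++ (C ++ (X ++ (X ++ (X ++ q))))))
      ((p1 ++ (X ++ p2)) ++ (C ++ (C ++ (X ++ (X ++ (X ++ (X ++ q))))))) := by
    have h6 := dbx h p1 (p2 ++ (C ++ (C ++ X))) (X ++ q) X
    simpa only [List.append_assoc] using h6
  refine tr h4 (tr h5 ?_)
  have h7 := h3.symm
  simpa only [List.append_assoc] using h7

/-- the blocks of a list of indices -/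
def bl (L C : ℕ → List ℕ) (X : List ℕ) (s : ℕ → Bool) (l : List ℕ) : List ℕ :=
  l.flatMap (fun i => L i ++ (C i ++ (C i ++ (if s i then X ++ X else []))))

theorem insl (h : Gz β) (hp : P0 β) (L C : ℕ → List ℕ) (X R : List ℕ) (r : ℕ) (l : List ℕ)
    (hR : ∀ i, i ∈ l ∨ i = r → ∃ R1 R2, R = R1 ++ (L i ++ R2)) (p1 p2 : List ℕ) :
    RR β ((p1 ++ (X ++ p2)) ++ (bl L C X (fun _ => true) l ++ (L r ++ (X ++ R))))
      ((p1 ++ (X ++ p2)) ++ (X ++ (X ++ (bl L C X (fun _ => true) l ++ (L r ++ (X ++ R)))))) := by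
  cases l with
  | nil =>
    obtain ⟨R1, R2, hR'⟩ := hR r (Or.inr rfl)
    have e : bl L C X (fun _ => true) [] = [] := rfl
    rw [e, List.nil_append, hR']
    exact insX h hp p1 p2 R1 R2 X (L r)
  | cons j l =>
    obtain ⟨R1, R2, hR'⟩ := hR j (Or.inl List.mem_cons_self)
    obtain ⟨V, hV⟩ : ∃ V, V = bl L C X (fun _ => true) l ++ (L r ++ X) := ⟨_, rfl⟩
    have e : bl L C X (fun _ => true) (j :: l) ++ (L r ++ (X ++ R)) =
        L j ++ (C j ++ (C j ++ (X ++ (X ++ (V ++ R))))) := by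
      rw [hV]
      unfold bl
      rw [List.flatMap_cons]
      simp only [if_true, List.append_assoc]
    rw [e]
    -- the temporary words
    have h1 := tmp h p1 (p2 ++ L j) (V ++ R) X (C j)
    have h2 := tmp h p1 (p2 ++ (X ++ (X ++ L j))) (V ++ R) X (C j)
    have h3 := insX h hp p1 p2 (X ++ (C j ++ (C j ++ (X ++ (X ++ (V ++ R1)))))) R2 X (L j)
    have g1 : RR β ((p1 ++ (X ++ p2)) ++ (L j ++ (C j ++ (C j ++ (X ++ (X ++ (V ++ R)))))))
        ((p1 ++ (X ++ p2)) ++ (L j ++ (X ++ (X ++ (C j ++ (C j ++ (X ++ (X ++ (V ++ R))))))))) := by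
      simpa only [List.append_assoc] using h1
    have g2 : RR β ((p1 ++ (X ++ p2)) ++ (L j ++ (X ++ (X ++ (C j ++ (C j ++ (X ++ (X ++
        (V ++ R)))))))))
        ((p1 ++ (X ++ p2)) ++ (X ++ (X ++ (L j ++ (X ++ (X ++ (C j ++ (C j ++ (X ++ (X ++
          (V ++ R))))))))))) := by
      rw [hR']
      simpa only [List.append_assoc] using h3
    have g3 : RR β ((p1 ++ (X ++ p2)) ++ (X ++ (X ++ (L j ++ (X ++ (X ++ (C j ++ (C j ++ (X ++
        (X ++ (V ++ R)))))))))))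
        ((p1 ++ (X ++ p2)) ++ (X ++ (X ++ (L j ++ (C j ++ (C j ++ (X ++ (X ++ (V ++ R))))))))) := by
      have h4 := h2.symm
      simpa only [List.append_assoc] using h4
    exact tr g1 (tr g2 g3)

theorem fill (h : Gz β) (hp : P0 β) (L C : ℕ → List ℕ) (X R : List ℕ) (r : ℕ) (l : List ℕ) :
    (∀ i, i ∈ l ∨ i = r → ∃ R1 R2, R = R1 ++ (L i ++ R2)) → ∀ p1 p2 : List ℕ,
    RR β ((p1 ++ (X ++ p2)) ++ (bl L C X (fun _ => false) l ++ (L r ++ (X ++ R))))
      ((p1 ++ (X ++ p2)) ++ (bl L C X (fun _ => true) l ++ (L r ++ (X ++ R)))) := by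
  induction l with
  | nil => exact fun _ p1 p2 => RR.refl _
  | cons j l ih =>
    intro hR p1 p2
    have hR' : ∀ i, i ∈ l ∨ i = r → ∃ R1 R2, R = R1 ++ (L i ++ R2) := by
      intro i hi
      exact hR i (hi.imp (List.mem_cons_of_mem _) id)
    have h1 := ih hR' p1 (p2 ++ (L j ++ (C j ++ C j)))
    have h2 := insl h hp L C X R r l hR' p1 (p2 ++ (L j ++ (C j ++ C j)))
    have e1 : bl L C X (fun _ => false) (j :: l) =
        L j ++ (C j ++ (C j ++ bl L C X (fun _ => false) l)) := by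
      unfold bl
      rw [List.flatMap_cons]
      simp
    have e2 : bl L C X (fun _ => true) (j :: l) =
        L j ++ (C j ++ (C j ++ (X ++ (X ++ bl L C X (fun _ => true) l)))) := by
      unfold bl
      rw [List.flatMap_cons]
      simp
    rw [e1, e2]
    have h3 := tr h1 h2
    simpa only [List.append_assoc] using h3

/-- **FAP** -/
theorem fap : FapStmt := by
  intro β h hp r τ hτ X B S L C
  have hR : ∀ i, i ∈ List.range r ∨ i = r → ∃ R1 R2,
      B ++ τ.flatMap (fun i => S i ++ L i) = R1 ++ (L i ++ R2) := by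
    intro i hi
    have hi' : i ≤ r := by
      rcases hi with hi | hi
      · have := List.mem_range.1 hi
        omega
      · exact hi.le
    obtain ⟨τ1, τ2, hτ'⟩ := List.append_of_mem ((hτ.2 i).2 hi')
    refine ⟨B ++ (τ1.flatMap (fun i => S i ++ L i) ++ S i), τ2.flatMap (fun i => S i ++ L i), ?_⟩
    rw [hτ', List.flatMap_append, List.flatMap_cons]
    simp only [List.append_assoc]
  have h1 := fill h hp L C X (B ++ τ.flatMap (fun i => S i ++ L i)) r (List.range r) hR [] X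
  unfold ws
  have e : ∀ s : ℕ → Bool, bs L C X s r = bl L C X s (List.range r) := fun _ => rfl
  rw [e, e]
  simpa only [List.append_assoc, List.nil_append] using h1

end Pool.Agent.MWGN.H64
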